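import Mathlib
import Pool.Agent.H.MP_6dbda4_lc.A

namespace Pool.Agent.Results.MP_aebb62_gt.CovNull

open Set Filter Topology MeasureTheory Pool.Agent.H.MP_6dbda4_lc
open scoped BoundedContinuousFunction CompactlySupported

/-- the real line is a union of at most `ℵ₁` Lebesgue null sets -/
def CovNullAleph1 : Prop :=
  ∃ 𝒩 : Set (Set ℝ), Cardinal.mk 𝒩 ≤ Cardinal.aleph 1 ∧ (∀ N ∈ 𝒩, volume N = 0) ∧ ⋃₀ 𝒩 = univ

lemma fam (h : CovNullAleph1) : ∃ A : W → Set ℝ, (∀ b, IsCompact (A b) ∧ A b ⊆ Icc 0 1 ∧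
    ENNReal.ofReal (1 / 2) < volume (A b)) ∧ ∀ t, {b | t ∈ A b}.Countable := by
  obtain ⟨𝒩, h1, h2, h3⟩ := h
  have hne : Nonempty 𝒩 := by
    obtain ⟨N, hN, -⟩ : (0 : ℝ) ∈ ⋃₀ 𝒩 := h3 ▸ mem_univ _
    exact ⟨⟨N, hN⟩⟩
  obtain ⟨e⟩ : Nonempty (𝒩 ↪ W) := by
    rw [← Cardinal.le_def, Cardinal.mk_toType, Cardinal.card_ord]; exact h1
  let N : W → Set ℝ := fun a => (Function.invFun e a).1
  have hN : ∀ b, volume (⋃ a ∈ Iio b, N a) = 0 := fun b =>
    (measure_biUnion_null_iff (W_Iio b)).2 fun a _ => h2 _ (Function.invFun e a).2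
  have : ∀ b, ∃ K ⊆ Icc (0 : ℝ) 1 \ toMeasurable volume (⋃ a ∈ Iio b, N a), IsCompact K ∧
      ENNReal.ofReal (1 / 2) < volume K := fun b => by
    refine (measurableSet_Icc.diff (measurableSet_toMeasurable _ _)).exists_lt_isCompact ?_
    rw [measure_sdiff_null (by rw [measure_toMeasurable]; exact hN b), Real.volume_Icc]
    exact (ENNReal.ofReal_lt_ofReal_iff (by norm_num)).2 (by norm_num)
  choose A a1 a2 a3 using this
  refine ⟨A, fun b => ⟨a2 b, (a1 b).trans sdiff_subset, a3 b⟩, fun t => ?_⟩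
  obtain ⟨M, hM, ht⟩ : t ∈ ⋃₀ 𝒩 := h3 ▸ mem_univ _
  refine ((W_Iio (e ⟨M, hM⟩)).insert (e ⟨M, hM⟩)).mono fun b hb => ?_
  rw [Iio_insert]
  by_contra hc
  refine (a1 b hb).2 (subset_toMeasurable _ _ (mem_biUnion (x := e ⟨M, hM⟩) (show e ⟨M, hM⟩ < b from not_le.1 hc) ?_))
  simp only [N, Function.leftInverse_invFun e.injective ⟨M, hM⟩]
  exact ht

section
variable (A : W → Set ℝ)

def KS : Set (W → Bool) := {S | ∃ t ∈ Icc (0 : ℝ) 1, ∀ b, S b = true → t ∈ A b}

lemma KS_compact (hA : ∀ b, IsClosed (A b)) : IsCompact (KS A) := by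
  have h : IsClosed {q : (W → Bool) × ℝ | ∀ b, q.1 b = true → q.2 ∈ A b} := by
    simp only [ofPred_forall]
    refine isClosed_iInter fun b => ?_
    have : (⋂ (_ : True), {q : (W → Bool) × ℝ | q.1 b = false} ∪ {q | q.2 ∈ A b}) =
      {q : (W → Bool) × ℝ | q.1 b = true → q.2 ∈ A b} := by
      ext q; cases h : q.1 b <;> simp [h]
    rw [← this]
    exact isClosed_iInter fun _ => (isClosed_eq (by fun_prop) continuous_const).union
      ((hA b).preimage continuous_snd)
  have := ((isCompact_univ.prod (isCompact_Icc (a := (0 : ℝ)) (b := 1))).inter_right h).image continuous_fst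
  convert this
  ext S
  simp [KS]

lemma open_cyl (y : KS A) {F : Set W} (hF : F.Finite) : IsOpen {z : KS A | ∀ b ∈ F, z.1 b = y.1 b} := by
  simp only [ofPred_forall]
  exact hF.isOpen_biInter fun b _ => (isOpen_discrete {y.1 b}).preimage
    (f := fun z : KS A => z.1 b) ((continuous_apply b).comp continuous_subtype_val)

lemma nhds_cyl (y : KS A) {U : Set (KS A)} (hU : U ∈ 𝓝 y) :
    ∃ F : Set W, F.Finite ∧ {z : KS A | ∀ b ∈ F, z.1 b = y.1 b} ⊆ U := by
  rw [nhds_subtype, mem_comap] at hU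
  obtain ⟨V, hV, hs⟩ := hU
  rw [nhds_pi, Filter.mem_pi] at hV
  obtain ⟨F, hF, t, ht, h⟩ := hV
  exact ⟨F, hF, fun z hz => hs (h fun b hb => by rw [hz b hb]; exact mem_of_mem_nhds (ht b))⟩

lemma tight (hA : ∀ t, {b | t ∈ A b}.Countable) (T : Set (KS A)) (y : KS A) (hy : y ∈ closure T) :
    ∃ T' ⊆ T, T'.Countable ∧ y ∈ closure T' := by
  have hs : ∀ z : KS A, {b | z.1 b = true}.Countable := fun z => by
    obtain ⟨t, -, ht⟩ := z.2
    exact (hA t).mono fun b hb => ht b hb
  have : ∀ F : Set W, ∃ z ∈ T, F.Finite → ∀ b ∈ F, z.1 b = y.1 b := by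
    intro F
    by_cases hF : F.Finite
    · obtain ⟨z, h1, h2⟩ := mem_closure_iff.1 hy _ (open_cyl A y hF) (fun _ _ => rfl)
      exact ⟨z, h2, fun _ => h1⟩
    · obtain ⟨z, hz⟩ := closure_nonempty_iff.1 ⟨y, hy⟩
      exact ⟨z, hz, fun h => absurd h hF⟩
  choose τ t1 t2 using this
  let C : ℕ → Set W := fun n => Nat.rec {b | y.1 b = true}
    (fun _ C => C ∪ ⋃ F ∈ {F : Set W | F.Finite ∧ F ⊆ C}, {b | (τ F).1 b = true}) n
  have hC : ∀ n, (C n).Countable := by
    intro n
    induction n with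
    | zero => exact hs y
    | succ n ih => exact ih.union ((countable_ofPred_finite_subset ih).biUnion fun F _ => hs _)
  have hm : Monotone C := monotone_nat_of_le_succ fun n => subset_union_left
  refine ⟨τ '' {F | F.Finite ∧ F ⊆ ⋃ n, C n}, by rintro _ ⟨F, -, rfl⟩; exact t1 F,
    (countable_ofPred_finite_subset (countable_iUnion hC)).image _, mem_closure_iff_nhds.2 fun U hU => ?_⟩
  obtain ⟨F, hF, hs⟩ := nhds_cyl A y hU
  have h1 : (F ∩ ⋃ n, C n).Finite := hF.inter_of_left _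
  refine ⟨τ (F ∩ ⋃ n, C n), hs fun b hb => ?_, _, ⟨h1, inter_subset_right⟩, rfl⟩
  by_cases hbC : b ∈ ⋃ n, C n
  · exact t2 _ h1 b ⟨hb, hbC⟩
  · obtain ⟨n, hn⟩ : ∃ n, F ∩ ⋃ n, C n ⊆ C n := by
      have : ∀ᶠ n in atTop, ∀ c ∈ F ∩ ⋃ n, C n, c ∈ C n := by
        refine (eventually_all_finite h1).2 fun c hc => ?_
        obtain ⟨m, hm'⟩ := mem_iUnion.1 hc.2
        exact (eventually_ge_atTop m).mono fun n hn => hm hn hm'
      exact this.exists
    have a1 : (τ (F ∩ ⋃ n, C n)).1 b ≠ true := fun h =>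
      hbC (mem_iUnion.2 ⟨n + 1, Or.inr (mem_biUnion (x := F ∩ ⋃ n, C n) ⟨h1, hn⟩ h)⟩)
    have a2 : y.1 b ≠ true := fun h => hbC (mem_iUnion.2 ⟨0, h⟩)
    simp only [ne_eq, Bool.not_eq_true] at a1 a2
    rw [a1, a2]

lemma unif [CompactSpace (KS A)] {f : KS A → ℝ} (hf : Continuous f) {ε : ℝ} (hε : 0 < ε) :
    ∃ F : Set W, F.Finite ∧ ∀ z w : KS A, (∀ b ∈ F, z.1 b = w.1 b) → dist (f z) (f w) < ε := by
  have := fun y : KS A => nhds_cyl A y (hf.continuousAt.preimage_mem_nhds (Metric.ball_mem_nhds (f y) (half_pos hε)))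
  choose F F1 F2 using this
  obtain ⟨s, -, hs⟩ := isCompact_univ.elim_nhds_subcover (fun y : KS A => {z : KS A | ∀ b ∈ F y, z.1 b = y.1 b})
    fun y _ => (open_cyl A y (F1 y)).mem_nhds fun _ _ => rfl
  refine ⟨⋃ y ∈ s, F y, s.finite_toSet.biUnion fun y _ => F1 y, fun z w h => ?_⟩
  obtain ⟨y, hy, hz⟩ := mem_iUnion₂.1 (hs (mem_univ z))
  have h1 : dist (f z) (f y) < ε / 2 := F2 y hz
  have h2 : dist (f w) (f y) < ε / 2 := F2 y fun b hb => by rw [← h b (mem_biUnion hy hb)]; exact hz b hb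
  linarith [dist_triangle_right (f z) (f w) (f y)]

open Classical in
noncomputable def ph (hA : ∀ b, A b ⊆ Icc 0 1) (G : Set W) (t : ℝ) : KS A :=
  ⟨fun b => decide (b ∈ G ∧ t ∈ A b), by
    by_cases h : t ∈ Icc (0 : ℝ) 1
    · exact ⟨t, h, fun b hb => (of_decide_eq_true hb).2⟩
    · exact ⟨0, by simp, fun b hb => absurd (hA b (of_decide_eq_true hb).2) h⟩⟩

lemma meas [CompactSpace (KS A)] (hA : ∀ b, A b ⊆ Icc 0 1) (hm : ∀ b, MeasurableSet (A b)) (G : Set W)
    {f : KS A → ℝ} (hf : Continuous f) : Measurable fun t => f (ph A hA G t) := by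
  classical
  choose F F1 F2 using fun n : ℕ => unif A hf (Nat.one_div_pos_of_nat (α := ℝ) (n := n))
  refine measurable_of_tendsto_metrizable (f := fun n t => f (ph A hA (G ∩ F n) t)) (fun n => ?_) ?_
  · have := (F1 n).to_subtype
    let r : ℝ → F n → Prop := fun t b => t ∈ A b
    have hr : Measurable r := measurable_pi_lambda _ fun b => measurableSet_setOfPred.1 (hm b)
    have : (fun t => f (ph A hA (G ∩ F n) t)) =
        (fun v : F n → Prop => if h : ∃ t, r t = v then f (ph A hA (G ∩ F n) h.choose) else 0) ∘ r := by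
      ext t
      have h : ∃ s, r s = r t := ⟨t, rfl⟩
      simp only [Function.comp, dif_pos h]
      congr 1
      refine Subtype.ext (funext fun b => ?_)
      simp only [ph]
      by_cases hb : b ∈ F n
      · have : (h.choose ∈ A b) = (t ∈ A b) := congrFun h.choose_spec ⟨b, hb⟩
        exact decide_eq_decide.2 (by rw [this])
      · simp [hb]
    rw [this]
    exact Measurable.of_discrete.comp hr
  · refine tendsto_pi_nhds.2 fun t => tendsto_iff_dist_tendsto_zero.2
      (squeeze_zero (fun _ => dist_nonneg) (fun n => (F2 n _ _ fun b hb => ?_).le) tendsto_one_div_add_atTop_nhds_zero_nat)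
    simp [ph, hb]

lemma exists_measure [CompactSpace (KS A)] [MeasurableSpace (KS A)] [BorelSpace (KS A)]
    (hA : ∀ b, A b ⊆ Icc 0 1) (hm : ∀ b, MeasurableSet (A b)) (G : Set W) :
    ∃ ν : ProbabilityMeasure (KS A), (ν : Measure (KS A)).Regular ∧
      ∀ f : KS A →ᵇ ℝ, ∫ x, f x ∂(ν : Measure (KS A)) = ∫ t in Icc (0 : ℝ) 1, f (ph A hA G t) := by
  have hi : ∀ g : C_c(KS A, ℝ), Integrable (fun t => g (ph A hA G t)) (volume.restrict (Icc (0 : ℝ) 1)) :=
    fun g => Integrable.of_bound (meas A hA hm G g.continuous).aestronglyMeasurable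
      ‖g.toBoundedContinuousFunction‖ (ae_of_all _ fun t => g.toBoundedContinuousFunction.norm_coe_le_norm _)
  let Λ : C_c(KS A, ℝ) →ₚ[ℝ] ℝ :=
    { toFun g := ∫ t in Icc (0 : ℝ) 1, g (ph A hA G t)
      map_add' g g' := integral_add (hi g) (hi g')
      map_smul' c g := integral_smul c fun t => g (ph A hA G t)
      monotone' g g' h := integral_mono (hi g) (hi g') fun t => h _ }
  have key : ∀ f : KS A →ᵇ ℝ, ∫ x, f x ∂(RealRMK.rieszMeasure Λ) = ∫ t in Icc (0 : ℝ) 1, f (ph A hA G t) :=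
    fun f => RealRMK.integral_rieszMeasure Λ
      { toFun := f, hasCompactSupport' := HasCompactSupport.of_compactSpace _ }
  have : IsProbabilityMeasure (RealRMK.rieszMeasure Λ) := by
    have := key 1
    simp only [BoundedContinuousFunction.coe_one, Pi.one_apply, integral_const, smul_eq_mul, mul_one] at this
    rw [isProbabilityMeasure_iff_real, this]; simp
  exact ⟨⟨_, this⟩, RealRMK.regular_rieszMeasure Λ, key⟩

end

lemma main (h : CovNullAleph1) :
    ∃ (X : Type) (_ : TopologicalSpace X) (_ : MeasurableSpace X) (_ : BorelSpace X),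
      CompactSpace X ∧ T2Space X ∧
      (∀ (S : Set X) (y : X), y ∈ closure S → ∃ T ⊆ S, T.Countable ∧ y ∈ closure T) ∧
      ∃ (x : X) (A : Set (ProbabilityMeasure X)), (∀ μ ∈ A, (μ : Measure X).Regular) ∧
        (⟨Measure.dirac x, inferInstance⟩ : ProbabilityMeasure X) ∈ closure A ∧
        ∀ B ⊆ A, B.Countable → (⟨Measure.dirac x, inferInstance⟩ : ProbabilityMeasure X) ∉ closure B := by
  obtain ⟨A, hA, hc⟩ := fam h
  have : CompactSpace (KS A) := isCompact_iff_compactSpace.1 (KS_compact A fun b => (hA b).1.isClosed)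
  let _ : MeasurableSpace (KS A) := borel _
  have _ : BorelSpace (KS A) := ⟨rfl⟩
  choose ν n1 n2 using fun g : W => exists_measure A (fun b => (hA b).2.1) (fun b => (hA b).1.measurableSet) (Ici g)
  let x : KS A := ⟨fun _ => false, 0, by simp, by simp⟩
  have bdd : ∀ G : Set W, G.Countable → ∃ b, ∀ g ∈ G, g < b := by
    intro G hG
    by_contra hb
    push Not at hb
    refine W_unc ((hG.biUnion fun g _ => (W_Iio g).insert g).mono fun b _ => ?_)
    obtain ⟨g, h1, h2⟩ := hb b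
    exact mem_biUnion h1 (by rw [Iio_insert]; exact h2)
  have hW : Nonempty W := ⟨(bdd ∅ countable_empty).choose⟩
  refine ⟨KS A, inferInstance, inferInstance, inferInstance, this, inferInstance, tight A hc, x, range ν,
    by rintro _ ⟨g, rfl⟩; exact n1 g, ?_, fun B hB hBc hcl => ?_⟩
  · refine mem_closure_of_tendsto (X := ProbabilityMeasure (KS A)) (f := ν) (b := atTop) ?_
      (Eventually.of_forall mem_range_self)
    refine ProbabilityMeasure.tendsto_iff_forall_integral_tendsto.2 fun f => Metric.tendsto_atTop.2 fun ε hε => ?_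
    obtain ⟨F, F1, F2⟩ := unif A f.continuous (half_pos hε)
    obtain ⟨b, hb⟩ := bdd F F1.countable
    refine ⟨b, fun g hg => ?_⟩
    have e : ∫ ω, f ω ∂((⟨Measure.dirac x, inferInstance⟩ : ProbabilityMeasure (KS A)) : Measure (KS A)) = f x :=
      integral_dirac _ _
    have hi : Integrable (fun t => f (ph A (fun b => (hA b).2.1) (Ici g) t)) (volume.restrict (Icc (0 : ℝ) 1)) :=
      Integrable.of_bound (meas A _ (fun b => (hA b).1.measurableSet) _ f.continuous).aestronglyMeasurable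
        ‖f‖ (ae_of_all _ fun t => f.norm_coe_le_norm _)
    have e2 : ∫ t in Icc (0 : ℝ) 1, (f (ph A (fun b => (hA b).2.1) (Ici g) t) - f x) =
        (∫ t in Icc (0 : ℝ) 1, f (ph A (fun b => (hA b).2.1) (Ici g) t)) - f x := by
      rw [integral_sub hi (integrable_const _)]; simp
    refine lt_of_eq_of_lt (congrArg₂ dist (n2 g f) e) ?_
    rw [dist_eq_norm, ← e2]
    refine (norm_integral_le_of_norm_le_const (C := ε / 2) (ae_of_all _ fun t => ?_)).trans_lt (by simp [hε])
    rw [← dist_eq_norm]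
    refine (F2 _ _ fun c hc => ?_).le
    have : ¬ g ≤ c := not_le.2 ((hb c hc).trans_le hg)
    simp [ph, x, this]
  · obtain ⟨G, hG, rfl⟩ : ∃ G : Set W, G.Countable ∧ ν '' G = B := by
      choose! γ hγ using fun μ (h : μ ∈ B) => hB h
      refine ⟨γ '' B, hBc.image _, ?_⟩
      rw [image_image]
      exact (image_congr hγ).trans (image_id' _)
    obtain ⟨b, hb⟩ := bdd G hG
    let f : KS A →ᵇ ℝ := BoundedContinuousFunction.mkOfCompact ⟨fun z => if z.1 b = true then 1 else 0,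
      (continuous_of_discreteTopology (f := fun v : Bool => if v = true then (1 : ℝ) else 0)).comp
        ((continuous_apply b).comp continuous_subtype_val)⟩
    have hcl2 : IsClosed {μ : ProbabilityMeasure (KS A) | 1 / 2 ≤ ∫ z, f z ∂(μ : Measure (KS A))} :=
      isClosed_le continuous_const (ProbabilityMeasure.continuous_integral_boundedContinuousFunction f)
    have h1 := closure_minimal (s := ν '' G) (by
      rintro _ ⟨g, hg, rfl⟩
      have e : (fun t => f (ph A (fun b => (hA b).2.1) (Ici g) t)) = (A b).indicator 1 := by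
        ext t; by_cases ht : t ∈ A b <;> simp [f, ph, ht, (hb g hg).le]
      simp only [mem_ofPred_eq, n2]
      rw [e, integral_indicator_one (hA b).1.measurableSet, Measure.real,
        Measure.restrict_apply (hA b).1.measurableSet, inter_eq_left.2 (hA b).2.1]
      exact (ENNReal.ofReal_le_iff_le_toReal (hA b).1.measure_lt_top.ne).1 (hA b).2.2.le) hcl2 hcl
    have e : ∫ ω, f ω ∂((⟨Measure.dirac x, inferInstance⟩ : ProbabilityMeasure (KS A)) : Measure (KS A)) = f x :=
      integral_dirac _ _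
    have h2 : (1 : ℝ) / 2 ≤ f x := e ▸ h1
    norm_num [f, x] at h2

theorem result (h : CovNullAleph1 ∨ Cardinal.continuum.{0} = Cardinal.aleph.{0} 1) :
    ∃ (X : Type) (_ : TopologicalSpace X) (_ : MeasurableSpace X) (_ : BorelSpace X),
      CompactSpace X ∧ T2Space X ∧
      (∀ (S : Set X) (y : X), y ∈ closure S → ∃ T ⊆ S, T.Countable ∧ y ∈ closure T) ∧
      ∃ (x : X) (A : Set (ProbabilityMeasure X)), (∀ μ ∈ A, (μ : Measure X).Regular) ∧
        (⟨Measure.dirac x, inferInstance⟩ : ProbabilityMeasure X) ∈ closure A ∧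
        ∀ B ⊆ A, B.Countable → (⟨Measure.dirac x, inferInstance⟩ : ProbabilityMeasure X) ∉ closure B := by
  refine main (h.elim id fun h => ⟨range fun t : ℝ => {t}, ?_, ?_, ?_⟩)
  · exact Cardinal.mk_range_le.trans (by rw [Cardinal.mk_real, h])
  · rintro _ ⟨t, rfl⟩; simp
  · ext t; simp

end Pool.Agent.Results.MP_aebb62_gt.CovNull
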